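import Pool.Agent.H98.BE.Main

/-!
# `A + A` contains 99% of a coset of codimension `O(log^2(1/α) log log(1/α))`

The known bound (Sanders) for 99% of a subspace is `O(log^4(1/α))`. For the method see
`Pool/Agent/H98/BQ`, `Pool/Agent/H98/BE` and the file on MP_169871_nt. The subspace is found
together with random variables `X`, `S` which satisfy `P(X + S ∈ A + A) ≥ 1 - ε / 2`, such that the
law of `X` is almost invariant under all elements of the subspace; therefore the translate `X + S`
of each subset `W` of the subspace has, on average, most of its elements in `A + A`.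
-/

set_option autoImplicit false

namespace Pool.Agent.Results.MP_ba46be_co.MostOfACoset

open Finset
open scoped Pointwise

/-- For every `ε > 0` there is a constant `C` such that for every `n`, every `α ∈ (0, 1]` and every
`A ⊆ F_2^n` with `|A| ≥ α 2^n` there is a subspace `V` of codimension at most
`C log^2(1/α) log(2 + log(1/α))` such that every nonempty subset `W` of `V` (`W = V`, for example) has
a translate `z + W` of which at least `(1 - ε) |W|` elements are in `A + A`. If `|W| < 1/ε` then the
whole translate `z + W` is in `A + A`. -/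
theorem result : ∀ ε : ℝ, 0 < ε → ε < 1 → ∃ C : ℝ, 0 < C ∧
    ∀ (n : ℕ) (α : ℝ) (A : Finset (Fin n → ZMod 2)), 0 < α → α ≤ 1 → α * 2 ^ n ≤ (A.card : ℝ) →
    ∃ V : Submodule (ZMod 2) (Fin n → ZMod 2),
      (n : ℝ) ≤ Module.finrank (ZMod 2) V +
        C * (Real.log (1 / α) ^ 2 * Real.log (2 + Real.log (1 / α))) ∧
      ∀ W : Finset (Fin n → ZMod 2), (∀ w ∈ W, w ∈ V) →
        ∃ z : Fin n → ZMod 2,
          (1 - ε) * (W.card : ℝ) ≤ ((W.filter fun w => z + w ∈ A + A).card : ℝ) := by
  intro ε hε hε1
  obtain ⟨C, hC, h⟩ := Pool.Agent.H98.BE.f2e Pool.Agent.H98.BE.fqeMain ε hε hε1.le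
  refine ⟨C, hC, ?_⟩
  intro n α A hα hα1 hA
  obtain ⟨V, hV, -, hν⟩ := h n α A hα hα1 hA
  refine ⟨V, hV, fun W hW => ?_⟩
  exact Pool.Agent.H98.BE.of_measure (A + A) W ε fun ν h1 h2 => hν ν h1 fun y hy => hW y (h2 y hy)

end Pool.Agent.Results.MP_ba46be_co.MostOfACoset
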